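import Pool.Agent.Helper77.RL.Goals
import Pool.Agent.Helper59.RP.BIN

/-!
# Project RL (MP_fc6b1e_nt): the logarithm is an isometry near 1
-/

namespace Pool.Agent.Helper72.RL

open NumberField Polynomial Module IsDedekindDomain Pool.Agent.Helper51.SigLeo
open Pool.Agent.Helper77.RL

theorem two_mul_le (i : ℕ) : 2 * (i + 2) ≤ 4 ^ (i + 1) := by
  induction i with
  | zero => norm_num
  | succ i ih => rw [pow_succ]; omega

theorem l_iso : L_ISO := by
  intro p _ k _ _ _ L v hv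
  have hp : p.Prime := Fact.out
  have hp2 : (2 : ℝ) ≤ p := by exact_mod_cast hp.two_le
  set t : k := (v : k) - 1 with ht
  have ht4 : ‖t‖ ≤ 1 / 4 := by
    refine hv.trans ?_
    have h1 : (1 / p : ℝ) ≤ 1 / 2 := by
      apply one_div_le_one_div_of_le (by norm_num) hp2
    calc (1 / p : ℝ) ^ 2 ≤ (1 / 2 : ℝ) ^ 2 := pow_le_pow_left₀ (by positivity) h1 2
      _ = 1 / 4 := by norm_num
  have hs := L.hasSum v (by rw [← ht]; linarith)
  rw [← ht] at hs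
  rw [← hasSum_nat_add_iff' 1] at hs
  simp only [Finset.range_one, Finset.sum_singleton, pow_zero, zero_add, pow_one, one_mul,
    Nat.cast_zero, div_one] at hs
  have hterm : ∀ i : ℕ, ‖(-1 : k) ^ (i + 1) * t ^ (i + 1 + 1) / (((i + 1 : ℕ) : k) + 1)‖
      ≤ ‖t‖ / 2 := by
    intro i
    rw [norm_div, norm_mul, norm_pow, norm_neg, norm_one, one_pow, one_mul, norm_pow]
    have h1 : 1 ≤ ‖((i + 1 + 1 : ℕ) : k)‖ * ((i + 1 + 1 : ℕ) : ℝ) :=
      Pool.Agent.Helper59.RP.one_le_norm_nat_mul p (i + 1 + 1) (by omega)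
    have h2 : (((i + 1 : ℕ) : k) + 1) = ((i + 1 + 1 : ℕ) : k) := by push_cast; ring
    rw [h2]
    have hpos : 0 < ‖((i + 1 + 1 : ℕ) : k)‖ := by
      by_contra hcon
      have : ‖((i + 1 + 1 : ℕ) : k)‖ = 0 := le_antisymm (not_lt.1 hcon) (norm_nonneg _)
      rw [this] at h1
      norm_num at h1
    rw [div_le_iff₀ hpos]
    have h3 : ‖t‖ ^ (i + 1) ≤ (1 / 4 : ℝ) ^ (i + 1) := pow_le_pow_left₀ (norm_nonneg _) ht4 _
    have h4 : ((2 * (i + 2) : ℕ) : ℝ) ≤ ((4 ^ (i + 1) : ℕ) : ℝ) := by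
      exact_mod_cast two_mul_le i
    push_cast at h4 h1
    have h5 : (1 / 4 : ℝ) ^ (i + 1) * (2 * ((i : ℝ) + 2)) ≤ 1 := by
      rw [one_div, inv_pow, inv_mul_eq_div, div_le_one (by positivity)]
      exact h4
    have h6 : (1 / 4 : ℝ) ^ (i + 1) ≤ ‖((i + 1 + 1 : ℕ) : k)‖ / 2 := by
      have h9 : (0 : ℝ) < 2 * ((i : ℝ) + 2) := by positivity
      have h10 : (1 / 4 : ℝ) ^ (i + 1) * (2 * ((i : ℝ) + 2)) ≤
          (‖((i + 1 + 1 : ℕ) : k)‖ / 2) * (2 * ((i : ℝ) + 2)) := by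
        refine h5.trans ?_
        have : (‖((i + 1 + 1 : ℕ) : k)‖ / 2) * (2 * ((i : ℝ) + 2))
            = ‖((i + 1 + 1 : ℕ) : k)‖ * ((i : ℝ) + 1 + 1) := by ring
        rw [this]
        push_cast
        exact h1
      exact le_of_mul_le_mul_right h10 h9
    calc ‖t‖ ^ (i + 1 + 1) = ‖t‖ * ‖t‖ ^ (i + 1) := by ring
      _ ≤ ‖t‖ * (‖((i + 1 + 1 : ℕ) : k)‖ / 2) :=
          mul_le_mul_of_nonneg_left (h3.trans h6) (norm_nonneg _)
      _ = ‖t‖ / 2 * ‖((i + 1 + 1 : ℕ) : k)‖ := by ring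
  have hle : ‖L.toFun v - t‖ ≤ ‖t‖ / 2 := by
    refine le_of_tendsto hs.norm (Filter.Eventually.of_forall fun s => ?_)
    exact IsUltrametricDist.norm_sum_le_of_forall_le_of_nonneg (by positivity) fun i _ => hterm i
  rcases eq_or_ne t 0 with h0 | h0
  · rw [h0, norm_zero] at hle ⊢
    rw [sub_zero] at hle
    linarith [norm_nonneg (L.toFun v)]
  · have hpos : 0 < ‖t‖ := norm_pos_iff.2 h0
    have hlt : ‖L.toFun v - t‖ < ‖t‖ := by linarith
    have h5 : ‖(L.toFun v - t) + t‖ = max ‖L.toFun v - t‖ ‖t‖ :=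
      IsUltrametricDist.norm_add_eq_max_of_norm_ne_norm hlt.ne
    rw [sub_add_cancel, max_eq_right hlt.le] at h5
    exact h5

end Pool.Agent.Helper72.RL
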