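import Pool.Agent.Helper18.RL.Goals

set_option autoImplicit false
set_option linter.unusedSectionVars false

/-!
Arithmetic of colourings.
-/

namespace Pool.Agent.Helper72.RL

open Finset Pool.Agent.Helper37.RG3 Pool.Agent.Helper18.RL

theorem col_add {V : Type} [Fintype V] [DecidableEq V] (w w' : V → V → ℕ) (r s : ℕ)
    (h : Col w r) (h' : Col w' s) : Col (fun u v => w u v + w' u v) (r + s) := by
  obtain ⟨σ, h1, h2⟩ := h
  obtain ⟨τ, h3, h4⟩ := h'
  refine ⟨Fin.append σ τ, ?_, ?_⟩
  · intro i u
    refine Fin.addCases (fun j => ?_) (fun j => ?_) i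
    · rw [Fin.append_left]; exact h1 j u
    · rw [Fin.append_right]; exact h3 j u
  · intro u v huv
    rw [card_filter, Fin.sum_univ_add]
    simp only [Fin.append_left, Fin.append_right]
    rw [← card_filter, ← card_filter, h2 u v huv, h4 u v huv]

theorem col_mul {V : Type} [Fintype V] [DecidableEq V] (w : V → V → ℕ) (r k : ℕ)
    (h : Col w r) : Col (fun u v => k * w u v) (k * r) := by
  induction k with
  | zero =>
    rw [Nat.zero_mul]
    exact ⟨fun i => i.elim0, fun i => i.elim0, fun u v _ => by simp⟩
  | succ k ih =>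
    rw [Nat.succ_mul]
    have := col_add _ _ _ _ ih h
    simpa only [Nat.succ_mul] using this

theorem gcol : G_COL := by
  intro V _ _
  refine ⟨col_add, col_mul, ?_⟩
  intro m k hm
  refine ⟨fun _ => m, fun _ u => hm u, ?_⟩
  intro u v huv
  by_cases h : m u = v
  · simp [h, huv]
  · simp [h]

end Pool.Agent.Helper72.RL
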